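import Mathlib
import Pool.Agent.H94.IC.Targets3

/-!
# Insulating cracks: the noise family (NSE)
-/

open MeasureTheory Set Filter Topology Metric
open scoped ENNReal NNReal ContDiff RealInnerProductSpace

namespace Pool.Agent.H92.IC

open Pool.Agent.H94.IC

lemma ss_pos (j : ℕ) : 0 < ss j := by
  unfold ss
  positivity

lemma ee_pos (j : ℕ) : 0 < ee j := by
  unfold ee
  positivity

lemma ee_le_one (j : ℕ) : ee j ≤ 1 := by
  unfold ee
  exact pow_le_one₀ (by norm_num) (by norm_num)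

/-- ratio of scales -/
lemma ss_ratio {i j : ℕ} (h : i < j) : ss j ≤ (1 / 2 : ℝ) ^ (2 * j - 1) * ss i := by
  unfold ss
  rw [inv_eq_one_div, ← pow_add]
  apply pow_le_pow_of_le_one (by norm_num) (by norm_num)
  obtain ⟨k, rfl⟩ : ∃ k, j = i + 1 + k := ⟨j - i - 1, by omega⟩
  have : 2 * (i + 1 + k) - 1 = 2 * i + 2 * k + 1 := by omega
  rw [this]
  nlinarith

lemma infDist_frontier_le {Ω : Set E} (hΩ : IsOpen Ω) {x p : E} (hx : x ∈ Ω) (hp : p ∉ Ω) :
    infDist x (frontier Ω) ≤ dist x p := by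
  by_contra hcon
  push Not at hcon
  have hsub : ball x (infDist x (frontier Ω)) ⊆ Ω := by
    have hpre : IsPreconnected (ball x (infDist x (frontier Ω))) := (convex_ball _ _).isPreconnected
    refine hpre.subset_left_of_subset_union hΩ (isClosed_closure (s := Ω)).isOpen_compl ?_ ?_ ?_
    · rw [Set.disjoint_compl_right_iff_subset]
      exact subset_closure
    · intro y hy
      by_cases h1 : y ∈ Ω
      · exact Or.inl h1
      · refine Or.inr ?_
        intro h2
        have h3 : y ∈ frontier Ω := by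
          rw [hΩ.frontier_eq]
          exact ⟨h2, h1⟩
        have h4 := infDist_le_dist_of_mem (x := x) h3
        rw [mem_ball, dist_comm] at hy
        linarith
    · exact ⟨x, mem_ball_self (dist_nonneg.trans_lt hcon), hx⟩
  exact hp (hsub (by rw [mem_ball, dist_comm]; exact hcon))

lemma gr_diff {f : E → ℝ} {x : E} (h : ContDiffAt ℝ ∞ f x) : DifferentiableAt ℝ (gr f) x := by
  have h1 : ContDiffAt ℝ ∞ (fderiv ℝ f) x := h.fderiv_right (m := ∞) (by simp)
  have h2 : DifferentiableAt ℝ (fderiv ℝ f) x := h1.differentiableAt (by simp)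
  have h3 : DifferentiableAt ℝ (fun y => (InnerProductSpace.toDual ℝ E).symm (fderiv ℝ f y)) x :=
    ((InnerProductSpace.toDual ℝ E).symm.toContinuousLinearEquiv.differentiableAt).comp x h2
  exact h3

lemma gr_zero (x : E) : gr (fun _ : E => (0 : ℝ)) x = 0 := gradient_fun_const x 0

lemma harm_zero (O : Set E) : Harm O (fun _ => (0 : ℝ)) := by
  refine ⟨contDiffOn_const, fun x _ => ?_⟩
  have h1 : ∀ k : Fin 3, (pd k fun _ : E => (0 : ℝ)) = fun _ => 0 := by
    intro k
    funext y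
    simp [pd]
  simp [h1]

/-- the summands -/
noncomputable def VV (Z : ℕ → Finset (Fin 3 → ℤ)) (P : ℕ → (Fin 3 → ℤ) → E) (j1 K : ℕ) (g : Fin 3 → ZMod K)
    (w : E) (k j : ℕ) : E → ℝ := if j1 ≤ j then Uj Z P K g w k j else fun _ => 0

/-- **NSE** -/
theorem nse (h_pls : T_PLS) (h_njb : T_NJB) (h_nsr : T_NSR) : T_NSE := by
  classical
  intro Ω σ ν F ε hD hσ hF hε
  obtain ⟨c, j1, Z, P, hc, hc1, hP⟩ := h_pls Ω hD
  have hCq : ∀ q : E × ℕ, ∃ C : ℝ, 0 < C ∧ (q ∈ F → ∀ (K : ℕ) (g : Fin 3 → ZMod K) (j : ℕ),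
    1 ≤ K → j1 ≤ j →
    (∀ x, infDist x (closure Ω) < c * ss j / 2 → |Uj Z P K g q.1 q.2 j x| ≤ C * ee j ∧
      ‖gr (Uj Z P K g q.1 q.2 j) x‖ ≤ C * ee j ∧ ‖fderiv ℝ (gr (Uj Z P K g q.1 q.2 j)) x‖ ≤ C * ee j / ss j) ∧
    (∀ x T, 1 ≤ T → infDist x (closure Ω) < c * ss j / 2 → (∀ κ ∈ Z j, cls K g κ → T * ss j ≤ dist x (P j κ)) →
      ‖gr (Uj Z P K g q.1 q.2 j) x‖ ≤ C * ee j / T) ∧
    (∀ x, ∀ κ0 ∈ Z j, cls K g κ0 → infDist x (closure Ω) < c * ss j / 2 → dist x (P j κ0) ≤ 6 * ss j →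
      ‖gr (Uj Z P K g q.1 q.2 j) x - ee j • gr (HH q.1 q.2) ((ss j)⁻¹ • (x - P j κ0))‖ ≤ C * ee j / K) ∧
    Harm {x | infDist x (closure Ω) < c * ss j / 2} (Uj Z P K g q.1 q.2 j)) := by
    intro q
    by_cases hq : q ∈ F
    · obtain ⟨C, hC, h⟩ := h_njb Ω c j1 Z P q.1 q.2 hD hP hc hc1 (hF q hq).2
      exact ⟨C, hC, fun _ => h⟩
    · exact ⟨1, one_pos, fun h => absurd h hq⟩
  choose Cq hCq0 hCq1 using hCq
  set C : ℝ := 1 + ∑ q ∈ F, Cq q with hCdef
  have hC0 : 0 < C := by
    have : 0 ≤ ∑ q ∈ F, Cq q := Finset.sum_nonneg fun q _ => (hCq0 q).le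
    linarith
  have hCle : ∀ q ∈ F, Cq q ≤ C := by
    intro q hq
    have := Finset.single_le_sum (f := Cq) (fun q _ => (hCq0 q).le) hq
    linarith
  obtain ⟨K, hK⟩ := exists_nat_gt (3 * C / ε)
  have hK0 : (0 : ℝ) < K := lt_trans (by positivity) hK
  have hK1 : 1 ≤ K := by exact_mod_cast hK0
  have hCK : C / K ≤ ε / 3 := by
    rw [div_lt_iff₀ hε] at hK
    rw [div_le_div_iff₀ hK0 (by norm_num)]
    nlinarith
  have : NeZero K := ⟨by omega⟩
  -- closure points
  have hclo : ∀ x ∈ closure Ω, ∀ j, infDist x (closure Ω) < c * ss j / 2 := by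
    intro x hx j
    rw [infDist_zero_of_mem hx]
    have := ss_pos j
    positivity
  -- bounds for V
  have hVh : ∀ q ∈ F, ∀ (g : Fin 3 → ZMod K) (j : ℕ),
      Harm {x | infDist x (closure Ω) < c * ss j / 2} (VV Z P j1 K g q.1 q.2 j) := by
    intro q hq g j
    unfold VV
    split_ifs with hj
    · exact (hCq1 q hq K g j hK1 hj).2.2.2
    · exact harm_zero _
  have hVb : ∀ q ∈ F, ∀ (g : Fin 3 → ZMod K) (j : ℕ), ∀ x ∈ closure Ω,
      |VV Z P j1 K g q.1 q.2 j x| ≤ C * ee j ∧ ‖gr (VV Z P j1 K g q.1 q.2 j) x‖ ≤ C * ee j := by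
    intro q hq g j x hx
    unfold VV
    split_ifs with hj
    · obtain ⟨h1, h2, -⟩ := (hCq1 q hq K g j hK1 hj).1 x (hclo x hx j)
      have h3 : Cq q * ee j ≤ C * ee j := mul_le_mul_of_nonneg_right (hCle q hq) (ee_pos j).le
      exact ⟨h1.trans h3, h2.trans h3⟩
    · rw [gr_zero]
      have : 0 ≤ C * ee j := mul_nonneg hC0.le (ee_pos j).le
      simpa using this
  have hbs : Summable fun j : ℕ => C * ee j := by
    unfold ee
    exact (summable_geometric_of_lt_one (by norm_num) (by norm_num)).mul_left C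
  -- the family
  let ι := {q // q ∈ F} × (Fin 3 → ZMod K)
  let e : ι ≃ Fin (Fintype.card ι) := Fintype.equivFin ι
  have hnoise : ∀ i : ι, Noise Ω σ ν (fun x => ∑' j, VV Z P j1 K i.2 i.1.1.1 i.1.1.2 j x)
      (fun x => ∑' j, gr (VV Z P j1 K i.2 i.1.1.1 i.1.1.2 j) x) := by
    intro i
    exact h_nsr Ω σ ν (fun j => VV Z P j1 K i.2 i.1.1.1 i.1.1.2 j) (fun j => c * ss j / 2) (fun j => C * ee j)
      hD hσ (fun j => by have := ss_pos j; positivity) hbs (fun j => hVh i.1.1 i.1.2 i.2 j)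
      (fun j x hx => hVb i.1.1 i.1.2 i.2 j x hx)
  refine ⟨Fintype.card ι, fun m => fun x => ∑' j, VV Z P j1 K (e.symm m).2 (e.symm m).1.1.1 (e.symm m).1.1.2 j x,
    fun m => fun x => ∑' j, gr (VV Z P j1 K (e.symm m).2 (e.symm m).1.1.1 (e.symm m).1.1.2 j) x,
    fun m => hnoise (e.symm m), ?_⟩
  -- choice of j0
  have hlim : ∀ᶠ j : ℕ in atTop, (j : ℝ) * (1 / 2 : ℝ) ^ j < min (c / 2) (ε / (6 * C)) := by
    have := tendsto_self_mul_const_pow_of_lt_one (r := (1 / 2 : ℝ)) (by norm_num) (by norm_num)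
    exact this.eventually_lt_const (by positivity)
  obtain ⟨j2, hj2⟩ := eventually_atTop.mp hlim
  refine ⟨max (j1 + 1) j2, ?_⟩
  intro j hj x0 hx0 hx0d
  have hjj1 : j1 + 1 ≤ j := (le_max_left _ _).trans hj
  have hj2' := hj2 j ((le_max_right _ _).trans hj)
  have hδ1 : (j : ℝ) * (1 / 2 : ℝ) ^ j < c / 2 := hj2'.trans_le (min_le_left _ _)
  have hδ2 : (j : ℝ) * (1 / 2 : ℝ) ^ j < ε / (6 * C) := hj2'.trans_le (min_le_right _ _)
  have hj1r : (1 : ℝ) ≤ j := by exact_mod_cast (by omega : 1 ≤ j)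
  have hfr : (frontier Ω).Nonempty := by
    rw [nonempty_frontier_iff]
    refine ⟨⟨x0, hx0⟩, ?_⟩
    intro h
    have := hD.bdd
    rw [h] at this
    exact NormedSpace.unbounded_univ ℝ E this
  have hfc : IsCompact (frontier Ω) :=
    Metric.isCompact_of_isClosed_isBounded isClosed_frontier
      (hD.bdd.closure.subset frontier_subset_closure)
  obtain ⟨q', hq', hq'd⟩ := hfc.exists_infDist_eq_dist hfr x0
  obtain ⟨κ0, hκ0, hκ0d⟩ := hP.cover j (by omega) q' hq'
  have hPout : ∀ i, j1 ≤ i → ∀ κ ∈ Z i, P i κ ∉ Ω := by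
    intro i hi κ hκ hin
    have := hP.far i hi κ hκ (P i κ) (subset_closure hin)
    rw [dist_self] at this
    have h2 := mul_pos hc (ss_pos i)
    linarith
  have hx0P : dist x0 (P j κ0) ≤ 4 * ss j := by
    have := dist_triangle x0 q' (P j κ0)
    rw [hq'd] at hx0d
    linarith
  refine ⟨P j κ0, ?_, ?_⟩
  · intro x hx hxx0 hxd
    constructor
    · exact hxd.trans (infDist_frontier_le hD.op hx (hPout j (by omega) κ0 hκ0))
    · have := dist_triangle x x0 (P j κ0)
      have h2 := ss_pos j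
      linarith
  intro q hq
  set g : Fin 3 → ZMod K := fun k => ((κ0 k : ℤ) : ZMod K) with hg
  have hcls : cls K g κ0 := fun k => rfl
  refine ⟨e (⟨q, hq⟩, g), ∑ i ∈ Finset.range j, gr (VV Z P j1 K g q.1 q.2 i) x0, ?_⟩
  intro x hx hxx0 hxd
  have hgrad := (hnoise (⟨q, hq⟩, g)).grad x hx
  simp only [Equiv.symm_apply_apply]
  simp only at hgrad
  rw [hgrad]
  -- the series
  have hsum : Summable fun i => gr (VV Z P j1 K g q.1 q.2 i) x :=
    Summable.of_norm_bounded hbs fun i => (hVb q hq g i x (subset_closure hx)).2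
  rw [← hsum.sum_add_tsum_nat_add (j + 1), Finset.sum_range_succ]
  have hA : ‖(∑ i ∈ Finset.range j, gr (VV Z P j1 K g q.1 q.2 i) x) -
      ∑ i ∈ Finset.range j, gr (VV Z P j1 K g q.1 q.2 i) x0‖ ≤ ε / 3 * ee j := by
    rw [← Finset.sum_sub_distrib]
    have hterm : ∀ i ∈ Finset.range j, ‖gr (VV Z P j1 K g q.1 q.2 i) x - gr (VV Z P j1 K g q.1 q.2 i) x0‖
        ≤ C * (1 / 2 : ℝ) ^ (2 * j - 1) := by
      intro i hi
      rw [Finset.mem_range] at hi
      unfold VV
      split_ifs with hi1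
      · have hball : ∀ y ∈ closedBall x0 (ss j), infDist y (closure Ω) < c * ss i / 2 := by
          intro y hy
          have h1 : infDist y (closure Ω) ≤ ss j :=
            (infDist_le_dist_of_mem (subset_closure hx0)).trans (mem_closedBall.mp hy)
          have h2 := ss_ratio hi
          have h3 : (1 / 2 : ℝ) ^ (2 * j - 1) < c / 2 := by
            refine lt_of_le_of_lt ?_ hδ1
            calc (1 / 2 : ℝ) ^ (2 * j - 1) ≤ (1 / 2 : ℝ) ^ j :=
                  pow_le_pow_of_le_one (by norm_num) (by norm_num) (by omega)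
              _ = 1 * (1 / 2 : ℝ) ^ j := by rw [one_mul]
              _ ≤ j * (1 / 2 : ℝ) ^ j := by gcongr
          have h4 := ss_pos i
          nlinarith
        obtain ⟨hb, -, -, hharm⟩ := hCq1 q hq K g i hK1 hi1
        have hopen : IsOpen {x : E | infDist x (closure Ω) < c * ss i / 2} :=
          isOpen_lt (continuous_infDist_pt _) continuous_const
        have hmv := Convex.norm_image_sub_le_of_norm_fderiv_le (𝕜 := ℝ)
          (f := gr (Uj Z P K g q.1 q.2 i)) (C := C * ee i / ss i) (s := closedBall x0 (ss j))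
          (x := x0) (y := x)
          (fun y hy => gr_diff (hharm.1.contDiffAt (hopen.mem_nhds (hball y hy))))
          (fun y hy => ((hb y (hball y hy)).2.2).trans (by
            have h1 := hCle q hq
            have h2 := ee_pos i
            have h3 := ss_pos i
            gcongr))
          (convex_closedBall _ _) (mem_closedBall_self (ss_pos j).le) (mem_closedBall.mpr hxx0)
        refine hmv.trans ?_
        have h1 : ‖x - x0‖ ≤ ss j := by rwa [← dist_eq_norm]
        have h2 := ss_ratio hi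
        have h3 := ss_pos i
        have h4 := ee_le_one i
        have h5 := ee_pos i
        calc C * ee i / ss i * ‖x - x0‖ ≤ C * 1 / ss i * ((1 / 2 : ℝ) ^ (2 * j - 1) * ss i) := by
              gcongr
              exact h1.trans h2
          _ = C * (1 / 2 : ℝ) ^ (2 * j - 1) := by
              field_simp
      · rw [gr_zero, gr_zero, sub_zero, norm_zero]
        positivity
    calc _ ≤ ∑ i ∈ Finset.range j, C * (1 / 2 : ℝ) ^ (2 * j - 1) :=
          (norm_sum_le _ _).trans (Finset.sum_le_sum hterm)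
      _ = j * (C * (1 / 2 : ℝ) ^ (2 * j - 1)) := by
          rw [Finset.sum_const, Finset.card_range, nsmul_eq_mul]
      _ = 2 * C * (j * (1 / 2 : ℝ) ^ j) * ee j := by
          have h1 : (1 / 2 : ℝ) ^ (2 * j - 1) * (1 / 2) = (1 / 2 : ℝ) ^ j * (1 / 2 : ℝ) ^ j := by
            rw [← pow_succ, ← pow_add]
            congr 1
            omega
          unfold ee
          rw [inv_eq_one_div]
          linear_combination (2 * C * j) * h1
      _ ≤ 2 * C * (ε / (6 * C)) * ee j := by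
          have := ee_pos j
          gcongr
      _ = ε / 3 * ee j := by
          field_simp
          ring
  have hB : ‖gr (VV Z P j1 K g q.1 q.2 j) x - ee j • gr (HH q.1 q.2) ((ss j)⁻¹ • (x - P j κ0))‖ ≤ ε / 3 * ee j := by
    unfold VV
    rw [if_pos (by omega : j1 ≤ j)]
    have h1 := (hCq1 q hq K g j hK1 (by omega)).2.2.1 x κ0 hκ0 hcls (hclo x (subset_closure hx) j) (by
      have := dist_triangle x x0 (P j κ0)
      have h2 := ss_pos j
      linarith)
    refine h1.trans ?_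
    have h2 := hCle q hq
    have h3 := ee_pos j
    calc Cq q * ee j / K ≤ C * ee j / K := by gcongr
      _ = C / K * ee j := by ring
      _ ≤ ε / 3 * ee j := by gcongr
  have hCt : ‖∑' i, gr (VV Z P j1 K g q.1 q.2 (i + (j + 1))) x‖ ≤ ε / 3 * ee j := by
    have hterm : ∀ i : ℕ, ‖gr (VV Z P j1 K g q.1 q.2 (i + (j + 1))) x‖
        ≤ (C * ((1 / 2 : ℝ) ^ j * (1 / 2 : ℝ) ^ (j + 1))) * (1 / 2 : ℝ) ^ i := by
      intro i
      set m := i + (j + 1) with hm
      have hjm : j < m := by omega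
      unfold VV
      rw [if_pos (by omega : j1 ≤ m)]
      have hsm := ss_pos m
      have hsj := ss_pos j
      have hr := ss_ratio hjm
      have hT : 1 ≤ ss j / ss m := by
        rw [one_le_div hsm]
        refine hr.trans ?_
        calc (1 / 2 : ℝ) ^ (2 * m - 1) * ss j ≤ 1 * ss j := by
              gcongr
              exact pow_le_one₀ (by norm_num) (by norm_num)
          _ = ss j := one_mul _
      have h1 := (hCq1 q hq K g m hK1 (by omega)).2.1 x (ss j / ss m) hT (hclo x (subset_closure hx) m) (by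
        intro κ hκ _
        rw [div_mul_cancel₀ _ hsm.ne']
        exact hxd.trans (infDist_frontier_le hD.op hx (hPout m (by omega) κ hκ)))
      refine h1.trans ?_
      have h2 := hCle q hq
      have h3 := ee_pos m
      have h4 : Cq q * ee m / (ss j / ss m) = Cq q * ee m * (ss m / ss j) := by
        field_simp
      rw [h4]
      have h5 : ss m / ss j ≤ (1 / 2 : ℝ) ^ j := by
        rw [div_le_iff₀ hsj]
        refine hr.trans ?_
        have : (1 / 2 : ℝ) ^ (2 * m - 1) ≤ (1 / 2 : ℝ) ^ j :=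
          pow_le_pow_of_le_one (by norm_num) (by norm_num) (by omega)
        gcongr
      have h6 : ee m = (1 / 2 : ℝ) ^ (j + 1) * (1 / 2 : ℝ) ^ i := by
        unfold ee
        rw [inv_eq_one_div, ← pow_add]
        congr 1
        omega
      calc Cq q * ee m * (ss m / ss j) ≤ C * ee m * (1 / 2 : ℝ) ^ j := by gcongr
        _ = (C * ((1 / 2 : ℝ) ^ j * (1 / 2 : ℝ) ^ (j + 1))) * (1 / 2 : ℝ) ^ i := by
            rw [h6]
            ring
    refine (tsum_of_norm_bounded (hasSum_geometric_two.mul_left _) hterm).trans ?_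
    have h7 : (1 / 2 : ℝ) ^ j < ε / (6 * C) := by
      refine lt_of_le_of_lt ?_ hδ2
      calc (1 / 2 : ℝ) ^ j = 1 * (1 / 2 : ℝ) ^ j := by rw [one_mul]
        _ ≤ j * (1 / 2 : ℝ) ^ j := by gcongr
    have h8 : ee j = (1 / 2 : ℝ) ^ j := by
      unfold ee
      rw [inv_eq_one_div]
    calc C * ((1 / 2 : ℝ) ^ j * (1 / 2 : ℝ) ^ (j + 1)) * 2 = C * (1 / 2 : ℝ) ^ j * ee j := by
          rw [h8]
          ring
      _ ≤ C * (ε / (6 * C)) * ee j := by
          have := ee_pos j
          gcongr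
      _ = ε / 6 * ee j := by
          field_simp
      _ ≤ ε / 3 * ee j := by
          have := ee_pos j
          gcongr
          norm_num
  set A1 := ∑ i ∈ Finset.range j, gr (VV Z P j1 K g q.1 q.2 i) x
  set A0 := ∑ i ∈ Finset.range j, gr (VV Z P j1 K g q.1 q.2 i) x0
  set Bv := gr (VV Z P j1 K g q.1 q.2 j) x
  set Cv := ∑' i, gr (VV Z P j1 K g q.1 q.2 (i + (j + 1))) x
  set Hv := ee j • gr (HH q.1 q.2) ((ss j)⁻¹ • (x - P j κ0))
  have hfin : A1 + Bv + Cv - A0 - Hv = (A1 - A0) + (Bv - Hv) + Cv := by abel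
  rw [hfin]
  calc ‖(A1 - A0) + (Bv - Hv) + Cv‖ ≤ ‖A1 - A0‖ + ‖Bv - Hv‖ + ‖Cv‖ := norm_add₃_le
    _ ≤ ε / 3 * ee j + ε / 3 * ee j + ε / 3 * ee j := by gcongr
    _ = ε * ee j := by ring

end Pool.Agent.H92.IC
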