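import Mathlib
import Pool.Agent.H94.IC.Targets2

/-!
# Insulating cracks: embedded discs have tubes (TUB)
-/

open MeasureTheory Set Filter Topology Metric
open scoped ENNReal NNReal ContDiff RealInnerProductSpace

namespace Pool.Agent.H92.IC

open Pool.Agent.H94.IC

abbrev E2 := EuclideanSpace ℝ (Fin 2)

/-- projection to the plane -/
noncomputable def pr : E →L[ℝ] E2 :=
  LinearMap.toContinuousLinearMap
    { toFun := fun z => WithLp.toLp 2 ![z 0, z 1]
      map_add' := by
        intro x y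
        ext i
        fin_cases i <;> simp
      map_smul' := by
        intro c x
        ext i
        fin_cases i <;> simp }

@[simp] lemma pr_zero (z : E) : pr z 0 = z 0 := by
  simp [pr]

@[simp] lemma pr_one (z : E) : pr z 1 = z 1 := by
  simp [pr]

noncomputable def c2 : E →L[ℝ] ℝ := EuclideanSpace.proj (2 : Fin 3)

@[simp] lemma c2_apply (z : E) : c2 z = z 2 := rfl

/-- the cross product -/
noncomputable def cr (a b : E) : E :=
  WithLp.toLp 2 ![a 1 * b 2 - a 2 * b 1, a 2 * b 0 - a 0 * b 2, a 0 * b 1 - a 1 * b 0]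

@[simp] lemma cr_zero (a b : E) : cr a b 0 = a 1 * b 2 - a 2 * b 1 := rfl
@[simp] lemma cr_one (a b : E) : cr a b 1 = a 2 * b 0 - a 0 * b 2 := rfl
@[simp] lemma cr_two (a b : E) : cr a b 2 = a 0 * b 1 - a 1 * b 0 := rfl

/-- the normal -/
noncomputable def nrm (f : E2 → E) (y : E2) : E :=
  cr (fderiv ℝ f y (EuclideanSpace.single 0 1)) (fderiv ℝ f y (EuclideanSpace.single 1 1))

/-- the parametrisation -/
noncomputable def par (f : E2 → E) (z : E) : E := f (pr z) + z 2 • nrm f (pr z)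

lemma e2_decomp (h : E2) :
    h = h 0 • (EuclideanSpace.single 0 1 : E2) + h 1 • (EuclideanSpace.single 1 1 : E2) := by
  ext i
  fin_cases i <;> simp

lemma inj_lin (A : E2 →L[ℝ] E) (hA : Function.Injective A) (h : E)
    (hh : A (pr h) + h 2 • cr (A (EuclideanSpace.single 0 1)) (A (EuclideanSpace.single 1 1)) = 0) :
    h = 0 := by
  set a := A (EuclideanSpace.single 0 1) with ha
  set b := A (EuclideanSpace.single 1 1) with hb
  have e1 : A (pr h) = h 0 • a + h 1 • b := by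
    conv_lhs => rw [e2_decomp (pr h)]
    rw [map_add, map_smul, map_smul, ← ha, ← hb, pr_zero, pr_one]
  rw [e1] at hh
  have q0 : h 0 * a 0 + h 1 * b 0 + h 2 * (a 1 * b 2 - a 2 * b 1) = 0 := by
    have := congrArg (fun v : E => v 0) hh
    simpa using this
  have q1 : h 0 * a 1 + h 1 * b 1 + h 2 * (a 2 * b 0 - a 0 * b 2) = 0 := by
    have := congrArg (fun v : E => v 1) hh
    simpa using this
  have q2 : h 0 * a 2 + h 1 * b 2 + h 2 * (a 0 * b 1 - a 1 * b 0) = 0 := by
    have := congrArg (fun v : E => v 2) hh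
    simpa using this
  -- linear relation
  have key : ∀ u v : ℝ, u • a + v • b = 0 → u = 0 ∧ v = 0 := by
    intro u v huv
    have h1 : A (u • (EuclideanSpace.single 0 1 : E2) + v • (EuclideanSpace.single 1 1 : E2)) = A 0 := by
      rw [map_add, map_smul, map_smul, ← ha, ← hb, huv, map_zero]
    have h2 := hA h1
    constructor
    · have := congrArg (fun w : E2 => w 0) h2
      simpa using this
    · have := congrArg (fun w : E2 => w 1) h2
      simpa using this
  have hn : (a 1 * b 2 - a 2 * b 1) ^ 2 + (a 2 * b 0 - a 0 * b 2) ^ 2 + (a 0 * b 1 - a 1 * b 0) ^ 2 ≠ 0 := by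
    intro h0
    have m0 : a 1 * b 2 - a 2 * b 1 = 0 := by nlinarith [sq_nonneg (a 1 * b 2 - a 2 * b 1), sq_nonneg (a 2 * b 0 - a 0 * b 2), sq_nonneg (a 0 * b 1 - a 1 * b 0)]
    have m1 : a 2 * b 0 - a 0 * b 2 = 0 := by nlinarith [sq_nonneg (a 1 * b 2 - a 2 * b 1), sq_nonneg (a 2 * b 0 - a 0 * b 2), sq_nonneg (a 0 * b 1 - a 1 * b 0)]
    have m2 : a 0 * b 1 - a 1 * b 0 = 0 := by nlinarith [sq_nonneg (a 1 * b 2 - a 2 * b 1), sq_nonneg (a 2 * b 0 - a 0 * b 2), sq_nonneg (a 0 * b 1 - a 1 * b 0)]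
    have k : ∀ i : Fin 3, a i = 0 := by
      intro i
      have h3 : (b i) • a + (-(a i)) • b = 0 := by
        ext j
        fin_cases i <;> fin_cases j <;> simp <;> linarith
      have := (key _ _ h3).2
      linarith
    have ha0 : a = 0 := by
      ext i
      simpa using k i
    have := (key 1 0 (by rw [ha0]; simp)).1
    exact one_ne_zero this
  have t0 : h 2 = 0 := by
    have : h 2 * ((a 1 * b 2 - a 2 * b 1) ^ 2 + (a 2 * b 0 - a 0 * b 2) ^ 2 + (a 0 * b 1 - a 1 * b 0) ^ 2) = 0 := by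
      linear_combination (a 1 * b 2 - a 2 * b 1) * q0 + (a 2 * b 0 - a 0 * b 2) * q1 + (a 0 * b 1 - a 1 * b 0) * q2
    exact (mul_eq_zero.mp this).resolve_right hn
  have h4 : h 0 • a + h 1 • b = 0 := by
    rw [t0, zero_smul, add_zero] at hh
    exact hh
  obtain ⟨t1, t2⟩ := key _ _ h4
  ext i
  fin_cases i
  · simpa using t1
  · simpa using t2
  · simpa using t0

lemma contDiff_cr {G : Type*} [NormedAddCommGroup G] [NormedSpace ℝ G] {a b : G → E} {x : G}
    (ha : ContDiffAt ℝ ∞ a x) (hb : ContDiffAt ℝ ∞ b x) : ContDiffAt ℝ ∞ (fun y => cr (a y) (b y)) x := by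
  rw [contDiffAt_euclidean] at ha hb ⊢
  intro i
  fin_cases i
  · simp only [Fin.zero_eta, cr_zero]
    exact ((ha 1).mul (hb 2)).sub ((ha 2).mul (hb 1))
  · simp only [Fin.mk_one, cr_one]
    exact ((ha 2).mul (hb 0)).sub ((ha 0).mul (hb 2))
  · simp only [Fin.reduceFinMk, cr_two]
    exact ((ha 0).mul (hb 1)).sub ((ha 1).mul (hb 0))

lemma nrm_smooth {f : E2 → E} {U : Set E2} (hU : IsOpen U) (hf : ContDiffOn ℝ ∞ f U) {y : E2} (hy : y ∈ U) :
    ContDiffAt ℝ ∞ (nrm f) y := by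
  have h1 : ContDiffAt ℝ ∞ f y := hf.contDiffAt (hU.mem_nhds hy)
  have h2 : ContDiffAt ℝ ∞ (fderiv ℝ f) y := h1.fderiv_right (m := ∞) (by simp)
  exact contDiff_cr (h2.clm_apply contDiffAt_const) (h2.clm_apply contDiffAt_const)

lemma par_smooth {f : E2 → E} {U : Set E2} (hU : IsOpen U) (hf : ContDiffOn ℝ ∞ f U) {z : E}
    (hz : pr z ∈ U) : ContDiffAt ℝ ∞ (par f) z := by
  have h1 : ContDiffAt ℝ ∞ (fun z => f (pr z)) z :=
    (hf.contDiffAt (hU.mem_nhds hz)).comp z pr.contDiff.contDiffAt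
  have h2 : ContDiffAt ℝ ∞ (fun z => nrm f (pr z)) z :=
    (nrm_smooth hU hf hz).comp z pr.contDiff.contDiffAt
  have h3 : ContDiffAt ℝ ∞ (fun z : E => z 2) z := c2.contDiff.contDiffAt
  exact h1.add (h3.smul h2)

lemma par_fderiv {f : E2 → E} {U : Set E2} (hU : IsOpen U) (hf : ContDiffOn ℝ ∞ f U) {z : E}
    (hz : pr z ∈ U) (hz2 : z 2 = 0) (h : E) :
    fderiv ℝ (par f) z h = fderiv ℝ f (pr z) (pr h) + h 2 • nrm f (pr z) := by
  have h1 : HasFDerivAt (fun z => f (pr z)) ((fderiv ℝ f (pr z)).comp pr) z :=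
    (((hf.contDiffAt (hU.mem_nhds hz)).differentiableAt (by simp)).hasFDerivAt).comp z pr.hasFDerivAt
  have h2 : HasFDerivAt (fun z => nrm f (pr z)) ((fderiv ℝ (nrm f) (pr z)).comp pr) z :=
    (((nrm_smooth hU hf hz).differentiableAt (by simp)).hasFDerivAt).comp z pr.hasFDerivAt
  have h3 : HasFDerivAt (fun z : E => z 2) c2 z := c2.hasFDerivAt
  have h4 := h1.add (h3.smul h2)
  have h5 : fderiv ℝ (par f) z = _ := h4.fderiv
  rw [h5]
  simp [hz2]

lemma flatDisc_compact : IsCompact flatDisc := by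
  apply Metric.isCompact_of_isClosed_isBounded
  · have h1 : IsClosed {y : E | y 2 = 0} := isClosed_eq c2.continuous continuous_const
    have h2 : IsClosed {y : E | y 0 ^ 2 + y 1 ^ 2 ≤ 1} :=
      isClosed_le (((EuclideanSpace.proj (0 : Fin 3) : E →L[ℝ] ℝ).continuous.pow 2).add
        ((EuclideanSpace.proj (1 : Fin 3) : E →L[ℝ] ℝ).continuous.pow 2)) continuous_const
    exact h1.inter h2
  · refine (isBounded_closedBall (x := (0 : E)) (r := 1)).subset ?_
    intro y hy
    rw [mem_closedBall_zero_iff, EuclideanSpace.norm_eq, Fin.sum_univ_three]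
    obtain ⟨h0, h1⟩ := hy
    rw [Real.sqrt_le_one]
    simp only [Real.norm_eq_abs, sq_abs]
    rw [h0]
    linarith

/-- **TUB** -/
theorem tub : T_TUB := by
  classical
  intro Ω S hΩ hS
  obtain ⟨hSΩ, f, U, hU, hDU, hf, hinj, himm, rfl⟩ := hS
  have hD : ∀ z ∈ flatDisc, pr z ∈ D2 := by
    intro z hz
    rw [mem_closedBall_zero_iff, EuclideanSpace.norm_eq, Fin.sum_univ_two, Real.sqrt_le_one]
    simp only [Real.norm_eq_abs, sq_abs, pr_zero, pr_one]
    exact hz.2
  have hval : ∀ z ∈ flatDisc, par f z = f (pr z) := by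
    intro z hz
    rw [par, hz.1, zero_smul, add_zero]
  set V0 : Set E := pr ⁻¹' U with hV0
  have hV0o : IsOpen V0 := hU.preimage pr.continuous
  have hdisc0 : flatDisc ⊆ V0 := fun z hz => hDU (hD z hz)
  have hsm : ∀ z ∈ V0, ContDiffAt ℝ ∞ (par f) z := fun z hz => par_smooth hU hf hz
  have hcd : ContDiffOn ℝ ∞ (par f) V0 := fun z hz => (hsm z hz).contDiffWithinAt
  -- derivative invertible on the flat disc
  have hinv : ∀ z ∈ flatDisc, ∃ A : E ≃L[ℝ] E, (A : E →L[ℝ] E) = fderiv ℝ (par f) z := by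
    intro z hz
    have hi : Function.Injective (fderiv ℝ (par f) z : E →ₗ[ℝ] E) := by
      rw [injective_iff_map_eq_zero]
      intro h hh
      have e := par_fderiv hU hf (hdisc0 hz) hz.1 h
      have hh' : fderiv ℝ (par f) z h = 0 := hh
      rw [e] at hh'
      exact inj_lin _ (himm _ (hD z hz)) h hh'
    refine ⟨(LinearEquiv.ofInjectiveEndo _ hi).toContinuousLinearEquiv, ?_⟩
    ext v
    rfl
  set G : Set E := {z | z ∈ V0 ∧ par f z ∈ Ω ∧ fderiv ℝ (par f) z ∈ range ((↑) : (E ≃L[ℝ] E) → E →L[ℝ] E)}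
    with hG
  have hGo : IsOpen G := by
    have h1 : IsOpen (V0 ∩ (par f) ⁻¹' Ω) := hcd.continuousOn.isOpen_inter_preimage hV0o hΩ
    have h2 : ContinuousOn (fderiv ℝ (par f)) V0 :=
      (hcd.continuousOn_fderiv_of_isOpen hV0o (by simp))
    have h3 : IsOpen (V0 ∩ (fderiv ℝ (par f)) ⁻¹' range ((↑) : (E ≃L[ℝ] E) → E →L[ℝ] E)) :=
      h2.isOpen_inter_preimage hV0o ContinuousLinearEquiv.isOpen
    have h4 : G = (V0 ∩ (par f) ⁻¹' Ω) ∩ (V0 ∩ (fderiv ℝ (par f)) ⁻¹' range ((↑) : (E ≃L[ℝ] E) → E →L[ℝ] E)) := by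
      ext z
      simp only [hG, mem_ofPred_eq, mem_inter_iff, mem_preimage]
      tauto
    rw [h4]
    exact h1.inter h3
  have hGd : flatDisc ⊆ G := by
    intro z hz
    refine ⟨hdisc0 hz, ?_, ?_⟩
    · rw [hval z hz]
      exact hSΩ ⟨_, hD z hz, rfl⟩
    · obtain ⟨A, hA⟩ := hinv z hz
      exact ⟨A, hA⟩
  -- strict derivatives
  have hstrict : ∀ z ∈ G, ∃ A : E ≃L[ℝ] E, HasStrictFDerivAt (par f) (A : E →L[ℝ] E) z := by
    intro z hz
    obtain ⟨A, hA⟩ := hz.2.2
    refine ⟨A, ?_⟩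
    rw [hA]
    exact (hsm z hz.1).hasStrictFDerivAt (by simp)
  -- injectivity near the disc
  have hinj0 : InjOn (par f) flatDisc := by
    intro x hx y hy hxy
    rw [hval x hx, hval y hy] at hxy
    have h1 := hinj (hD x hx) (hD y hy) hxy
    ext i
    fin_cases i
    · have := congrArg (fun w : E2 => w 0) h1
      simpa using this
    · have := congrArg (fun w : E2 => w 1) h1
      simpa using this
    · show x 2 = y 2
      rw [hx.1, hy.1]
  obtain ⟨t, ht, hti⟩ := hinj0.exists_mem_nhdsSet flatDisc_compact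
    (fun z hz => (hsm z (hdisc0 hz)).continuousAt)
    (fun z hz => by
      obtain ⟨A, hA⟩ := hstrict z (hGd hz)
      refine ⟨(hA.toOpenPartialHomeomorph (par f)).source,
        (hA.toOpenPartialHomeomorph (par f)).open_source.mem_nhds hA.mem_toOpenPartialHomeomorph_source, ?_⟩
      have := (hA.toOpenPartialHomeomorph (par f)).injOn
      rwa [hA.toOpenPartialHomeomorph_coe] at this)
  obtain ⟨t', ht'o, hdt', ht't⟩ := mem_nhdsSet_iff_exists.mp ht
  obtain ⟨d, hd, hdsub⟩ := flatDisc_compact.exists_thickening_subset_open (hGo.inter ht'o)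
    (subset_inter hGd hdt')
  set V : Set E := thickening d flatDisc with hV
  have hVo : IsOpen V := isOpen_thickening
  have hVG : V ⊆ G := hdsub.trans inter_subset_left
  have hVi : InjOn (par f) V := hti.mono ((hdsub.trans inter_subset_right).trans ht't)
  have hopen : IsOpenMap (V.domRestrict (par f)) := by
    rw [isOpenMap_iff_nhds_le]
    rintro ⟨z, hz⟩
    obtain ⟨A, hA⟩ := hstrict z (hVG hz)
    have h1 : map (par f) (𝓝 z) = 𝓝 (par f z) := hA.map_nhds_eq_of_equiv
    have h2 : map (V.domRestrict (par f)) (𝓝 ⟨z, hz⟩) = map (par f) (map Subtype.val (𝓝 (⟨z, hz⟩ : V))) := by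
      rw [Filter.map_map]
      rfl
    rw [h2, map_nhds_subtype_coe_eq_nhds hz (hVo.mem_nhds hz), h1]
    exact le_rfl
  let e : PartialEquiv E E := hVi.toPartialEquiv (par f) V
  have hes : e.source = V := rfl
  have hec : ContinuousOn e e.source := by
    rw [hes]
    exact fun z hz => (hsm z (hVG hz).1).continuousAt.continuousWithinAt
  let Φ : OpenPartialHomeomorph E E := OpenPartialHomeomorph.ofContinuousOpenRestrict e hec hopen hVo
  have hΦ : (Φ : E → E) = par f := rfl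
  have hΦs : Φ.source = V := rfl
  have hΦt : Φ.target = par f '' V := rfl
  refine ⟨Φ, d / 2, ⟨by positivity, ?_, ?_, ?_, ?_, ?_⟩⟩
  · rw [hΦs]
    exact cthickening_subset_thickening' hd (by linarith) _
  · rw [hΦt]
    rintro _ ⟨z, hz, rfl⟩
    exact (hVG hz).2.1
  · rw [hΦs, hΦ]
    exact hcd.mono fun z hz => (hVG hz).1
  · intro y hy
    have hz : Φ.symm y ∈ V := Φ.map_target hy
    obtain ⟨A, hA⟩ := hstrict _ (hVG hz)
    exact (Φ.contDiffAt_symm hy (f₀' := A) hA.hasFDerivAt (hsm _ (hVG hz).1)).contDiffWithinAt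
  · rw [hΦ]
    ext x
    constructor
    · rintro ⟨z, hz, rfl⟩
      exact ⟨pr z, hD z hz, (hval z hz).symm⟩
    · rintro ⟨y, hy, rfl⟩
      have hz : (WithLp.toLp 2 ![y 0, y 1, 0] : E) ∈ flatDisc := by
        rw [mem_closedBall_zero_iff, EuclideanSpace.norm_eq, Fin.sum_univ_two, Real.sqrt_le_one] at hy
        simp only [Real.norm_eq_abs, sq_abs] at hy
        refine ⟨rfl, ?_⟩
        simpa using hy
      refine ⟨_, hz, ?_⟩
      rw [hval _ hz]
      congr 1
      ext i
      fin_cases i <;> simp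

end Pool.Agent.H92.IC
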